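import Mathlib
import Pool.Agent.Y773.NV.St0

/-!
# Selberg's weights on the subsets of a finite set (job SEL of project NV, helper773)
-/

set_option autoImplicit false

open Pool.Agent.Y773.NV

namespace Pool.Agent.Y462.NV.Sel

open Classical

variable {ι : Type} {P : Finset ι} {N : ι → ℝ} {M : ℝ}

lemma mem_SM {A : Finset ι} : A ∈ SM P N M ↔ A ⊆ P ∧ nA N A ≤ M := by
  simp [SM]

lemma nA_empty : nA N ∅ = 1 := by simp [nA]

lemma ph_empty : ph N ∅ = 1 := by simp [ph]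

lemma nA_pos (hN : ∀ p ∈ P, 2 ≤ N p) {A : Finset ι} (hA : A ⊆ P) : 0 < nA N A :=
  Finset.prod_pos fun p hp => by linarith [hN p (hA hp)]

lemma ph_pos (hN : ∀ p ∈ P, 2 ≤ N p) {A : Finset ι} (hA : A ⊆ P) : 0 < ph N A :=
  Finset.prod_pos fun p hp => by linarith [hN p (hA hp)]

lemma one_le_ph (hN : ∀ p ∈ P, 2 ≤ N p) {A : Finset ι} (hA : A ⊆ P) : 1 ≤ ph N A := by
  unfold ph
  have : ∏ p ∈ A, (1 : ℝ) ≤ ∏ p ∈ A, (N p - 1) :=
    Finset.prod_le_prod (fun _ _ => zero_le_one) fun p hp => by linarith [hN p (hA hp)]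
  simpa using this

lemma one_le_nA (hN : ∀ p ∈ P, 2 ≤ N p) {A : Finset ι} (hA : A ⊆ P) : 1 ≤ nA N A := by
  unfold nA
  have : ∏ p ∈ A, (1 : ℝ) ≤ ∏ p ∈ A, N p :=
    Finset.prod_le_prod (fun _ _ => zero_le_one) fun p hp => by linarith [hN p (hA hp)]
  simpa using this

lemma nA_split {A B : Finset ι} (h : A ⊆ B) : nA N B = nA N A * nA N (B \ A) := by
  unfold nA
  rw [mul_comm, Finset.prod_sdiff h]

lemma ph_split {A B : Finset ι} (h : A ⊆ B) : ph N B = ph N A * ph N (B \ A) := by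
  unfold ph
  rw [mul_comm, Finset.prod_sdiff h]

lemma SM_down (hN : ∀ p ∈ P, 2 ≤ N p) {A B : Finset ι} (hB : B ∈ SM P N M) (h : A ⊆ B) :
    A ∈ SM P N M := by
  rw [mem_SM] at hB ⊢
  refine ⟨h.trans hB.1, le_trans ?_ hB.2⟩
  rw [nA_split h]
  have h1 : 1 ≤ nA N (B \ A) := one_le_nA hN ((Finset.sdiff_subset).trans hB.1)
  nlinarith [nA_pos hN (h.trans hB.1)]

lemma empty_mem (hM : 1 ≤ M) : (∅ : Finset ι) ∈ SM P N M := by
  rw [mem_SM, nA_empty]
  exact ⟨Finset.empty_subset _, hM⟩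

lemma one_le_GS (hN : ∀ p ∈ P, 2 ≤ N p) (hM : 1 ≤ M) : 1 ≤ GS P N M := by
  unfold GS
  have h1 : (ph N (∅ : Finset ι))⁻¹ ≤ ∑ E ∈ SM P N M, (ph N E)⁻¹ :=
    Finset.single_le_sum (f := fun E => (ph N E)⁻¹)
      (fun _ hE => (inv_pos.2 (ph_pos hN (mem_SM.1 hE).1)).le) (empty_mem hM)
  simpa [ph_empty] using h1

lemma bS_empty (hN : ∀ p ∈ P, 2 ≤ N p) (hM : 1 ≤ M) : bS P N M ∅ = 1 := by
  have hG := one_le_GS (P := P) (N := N) hN hM
  unfold bS
  rw [Finset.filter_true_of_mem (fun E _ => Finset.empty_subset E)]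
  simp only [Finset.card_empty, pow_zero, nA_empty]
  change 1 * 1 / GS P N M * GS P N M = 1
  field_simp

/-- sum of `1/φ(E)` over `E ⊇ A` -/
noncomputable def SA (P : Finset ι) (N : ι → ℝ) (M : ℝ) (A : Finset ι) : ℝ :=
  ∑ E ∈ (SM P N M).filter (fun E => A ⊆ E), (ph N E)⁻¹

lemma SA_nonneg (hN : ∀ p ∈ P, 2 ≤ N p) (A : Finset ι) : 0 ≤ SA P N M A :=
  Finset.sum_nonneg fun E hE =>
    (inv_pos.2 (ph_pos hN (mem_SM.1 (Finset.mem_filter.1 hE).1).1)).le

lemma SA_le (hN : ∀ p ∈ P, 2 ≤ N p) {A : Finset ι} (hA : A ⊆ P) :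
    SA P N M A ≤ (ph N A)⁻¹ * GS P N M := by
  unfold SA GS
  rw [Finset.mul_sum]
  have h1 : ∑ E ∈ (SM P N M).filter (fun E => A ⊆ E), (ph N E)⁻¹ =
      ∑ E ∈ (SM P N M).filter (fun E => A ⊆ E), (ph N A)⁻¹ * (ph N (E \ A))⁻¹ := by
    refine Finset.sum_congr rfl fun E hE => ?_
    rw [ph_split (Finset.mem_filter.1 hE).2, mul_inv]
  rw [h1]
  have h2 : ∑ E ∈ (SM P N M).filter (fun E => A ⊆ E), (ph N A)⁻¹ * (ph N (E \ A))⁻¹ =
      ∑ D ∈ ((SM P N M).filter (fun E => A ⊆ E)).image (fun E => E \ A),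
        (ph N A)⁻¹ * (ph N D)⁻¹ := by
    rw [Finset.sum_image]
    intro E hE F hF h
    have hE' := (Finset.mem_filter.1 hE).2
    have hF' := (Finset.mem_filter.1 hF).2
    have : E \ A = F \ A := h
    rw [← Finset.sdiff_union_of_subset hE', ← Finset.sdiff_union_of_subset hF', this]
  rw [h2]
  refine Finset.sum_le_sum_of_subset_of_nonneg ?_ ?_
  · intro D hD
    obtain ⟨E, hE, rfl⟩ := Finset.mem_image.1 hD
    exact SM_down hN (Finset.mem_filter.1 hE).1 Finset.sdiff_subset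
  · intro D hD _
    have h3 := ph_pos hN (mem_SM.1 hD).1
    have h4 := ph_pos hN hA
    positivity

lemma bS_bound (hN : ∀ p ∈ P, 2 ≤ N p) (hM : 1 ≤ M) {A : Finset ι} (hA : A ∈ SM P N M) :
    |bS P N M A| ≤ 2 ^ A.card := by
  have hG := one_le_GS (P := P) (N := N) hN hM
  have hAP := (mem_SM.1 hA).1
  have hn := nA_pos hN hAP
  have hp := ph_pos hN hAP
  have h1 : bS P N M A = (-1) ^ A.card * (nA N A / GS P N M * SA P N M A) := by
    unfold bS SA
    ring
  have hs := SA_nonneg (P := P) (N := N) (M := M) hN A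
  rw [h1, abs_mul, abs_pow, abs_neg, abs_one, one_pow, one_mul, abs_of_nonneg (by positivity)]
  have h2 : nA N A / GS P N M * SA P N M A ≤ nA N A / ph N A := by
    have h3 := SA_le (M := M) hN hAP
    calc nA N A / GS P N M * SA P N M A
        ≤ nA N A / GS P N M * ((ph N A)⁻¹ * GS P N M) :=
          mul_le_mul_of_nonneg_left h3 (by positivity)
      _ = nA N A / ph N A := by field_simp
  refine h2.trans ?_
  unfold nA ph
  rw [← Finset.prod_div_distrib]
  have h4 : ∏ p ∈ A, N p / (N p - 1) ≤ ∏ _p ∈ A, (2 : ℝ) := by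
    refine Finset.prod_le_prod (fun p hp' => ?_) fun p hp' => ?_
    · have := hN p (hAP hp')
      exact div_nonneg (by linarith) (by linarith)
    · have := hN p (hAP hp')
      rw [div_le_iff₀ (by linarith)]
      linarith
  simpa using h4

/-! ## Moebius inversion -/

lemma alt_sum {E F : Finset ι} (h : E ⊆ F) :
    ∑ A ∈ F.powerset.filter (fun A => E ⊆ A), (-1 : ℝ) ^ A.card =
      if E = F then (-1) ^ E.card else 0 := by
  have h1 : ∑ A ∈ F.powerset.filter (fun A => E ⊆ A), (-1 : ℝ) ^ A.card =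
      ∑ T ∈ (F \ E).powerset, (-1 : ℝ) ^ E.card * (-1) ^ T.card := by
    refine Finset.sum_nbij' (fun A => A \ E) (fun T => E ∪ T) ?_ ?_ ?_ ?_ ?_
    · intro A hA
      rw [Finset.mem_filter, Finset.mem_powerset] at hA
      rw [Finset.mem_powerset]
      exact Finset.sdiff_subset_sdiff hA.1 (Finset.Subset.refl _)
    · intro T hT
      rw [Finset.mem_powerset] at hT
      rw [Finset.mem_filter, Finset.mem_powerset]
      exact ⟨Finset.union_subset h (hT.trans Finset.sdiff_subset), Finset.subset_union_left⟩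
    · intro A hA
      rw [Finset.mem_filter, Finset.mem_powerset] at hA
      exact Finset.union_sdiff_of_subset hA.2
    · intro T hT
      rw [Finset.mem_powerset] at hT
      rw [Finset.union_sdiff_left]
      exact Finset.sdiff_eq_self_of_disjoint
        (Finset.disjoint_of_subset_left hT Finset.sdiff_disjoint)
    · intro A hA
      rw [Finset.mem_filter, Finset.mem_powerset] at hA
      rw [← pow_add]
      congr 1
      rw [Finset.card_sdiff_of_subset hA.2]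
      have := Finset.card_le_card hA.2
      omega
  rw [h1, ← Finset.mul_sum]
  have h2 : ∑ T ∈ (F \ E).powerset, (-1 : ℝ) ^ T.card = if F \ E = ∅ then 1 else 0 := by
    have := Finset.sum_powerset_neg_one_pow_card (x := F \ E)
    have h3 : ((∑ m ∈ (F \ E).powerset, (-1 : ℤ) ^ m.card : ℤ) : ℝ) =
        ((if F \ E = ∅ then (1 : ℤ) else 0 : ℤ) : ℝ) := by rw [this]
    push_cast at h3
    exact h3
  rw [h2]
  by_cases hEF : E = F
  · subst hEF
    simp
  · have : F \ E ≠ ∅ := by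
      intro h0
      exact hEF (Finset.Subset.antisymm h (Finset.sdiff_eq_empty_iff_subset.1 h0))
    simp [hEF, this]

lemma y_eq (hN : ∀ p ∈ P, 2 ≤ N p) (E : Finset ι) :
    ∑ A ∈ (SM P N M).filter (fun A => E ⊆ A), (-1 : ℝ) ^ A.card * SA P N M A =
      if E ∈ SM P N M then (-1) ^ E.card * (ph N E)⁻¹ else 0 := by
  have h1 : ∑ A ∈ (SM P N M).filter (fun A => E ⊆ A), (-1 : ℝ) ^ A.card * SA P N M A =
      ∑ F ∈ SM P N M, (ph N F)⁻¹ *
        ∑ A ∈ (SM P N M).filter (fun A => E ⊆ A ∧ A ⊆ F), (-1 : ℝ) ^ A.card := by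
    unfold SA
    simp only [Finset.mul_sum]
    rw [Finset.sum_comm' (t' := SM P N M)
      (s' := fun F => (SM P N M).filter (fun A => E ⊆ A ∧ A ⊆ F))]
    · refine Finset.sum_congr rfl fun F _ => Finset.sum_congr rfl fun A _ => ?_
      ring
    · intro A F
      simp only [Finset.mem_filter]
      tauto
  rw [h1]
  have h2 : ∀ F ∈ SM P N M, (ph N F)⁻¹ *
        ∑ A ∈ (SM P N M).filter (fun A => E ⊆ A ∧ A ⊆ F), (-1 : ℝ) ^ A.card =
      if E = F then (-1) ^ E.card * (ph N E)⁻¹ else 0 := by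
    intro F hF
    by_cases hEF : E ⊆ F
    · have h3 : (SM P N M).filter (fun A => E ⊆ A ∧ A ⊆ F) =
          F.powerset.filter (fun A => E ⊆ A) := by
        ext A
        simp only [Finset.mem_filter, Finset.mem_powerset]
        constructor
        · rintro ⟨_, h4, h5⟩
          exact ⟨h5, h4⟩
        · rintro ⟨h4, h5⟩
          exact ⟨SM_down hN hF h4, h5, h4⟩
      rw [h3, alt_sum hEF]
      by_cases h6 : E = F
      · rw [if_pos h6, if_pos h6, ← h6]
        ring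
      · rw [if_neg h6, if_neg h6, mul_zero]
    · have h3 : (SM P N M).filter (fun A => E ⊆ A ∧ A ⊆ F) = ∅ := by
        rw [Finset.filter_eq_empty_iff]
        rintro A _ ⟨h4, h5⟩
        exact hEF (h4.trans h5)
      have h6 : E ≠ F := fun h => hEF (h ▸ Finset.Subset.refl _)
      rw [h3, if_neg h6]
      simp
  rw [Finset.sum_congr rfl h2, Finset.sum_ite_eq]

/-- `x(A) = b(A)/N(A)` -/
noncomputable def xS (P : Finset ι) (N : ι → ℝ) (M : ℝ) (A : Finset ι) : ℝ :=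
  (-1) ^ A.card * SA P N M A / GS P N M

lemma bS_eq {A : Finset ι} : bS P N M A = xS P N M A * nA N A := by
  unfold bS xS SA
  ring

/-- `y(E)` -/
noncomputable def yS (P : Finset ι) (N : ι → ℝ) (M : ℝ) (E : Finset ι) : ℝ :=
  ∑ A ∈ SM P N M, if E ⊆ A then xS P N M A else 0

lemma yS_eq (hN : ∀ p ∈ P, 2 ≤ N p) (E : Finset ι) :
    yS P N M E = if E ∈ SM P N M then (-1) ^ E.card * (ph N E)⁻¹ / GS P N M else 0 := by
  unfold yS
  rw [← Finset.sum_filter]
  unfold xS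
  rw [← Finset.sum_div, y_eq hN E]
  by_cases h : E ∈ SM P N M
  · rw [if_pos h, if_pos h]
  · rw [if_neg h, if_neg h, zero_div]

/-! ## the quadratic form -/

lemma nA_eq_sum (C : Finset ι) : nA N C = ∑ E ∈ C.powerset, ph N E := by
  unfold nA ph
  rw [← Finset.prod_one_add]
  exact Finset.prod_congr rfl fun p _ => by ring

lemma nA_inter_eq (hN : ∀ p ∈ P, 2 ≤ N p) {A B : Finset ι} (hA : A ∈ SM P N M) :
    nA N (A ∩ B) = ∑ E ∈ SM P N M, (if E ⊆ A then 1 else 0) * (if E ⊆ B then 1 else 0) *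
      ph N E := by
  rw [nA_eq_sum]
  have h1 : ∀ E ∈ SM P N M, (if E ⊆ A then (1 : ℝ) else 0) * (if E ⊆ B then 1 else 0) * ph N E =
      if E ⊆ A ∩ B then ph N E else 0 := by
    intro E _
    by_cases h2 : E ⊆ A <;> by_cases h3 : E ⊆ B <;> simp [h2, h3, Finset.subset_inter_iff]
  rw [Finset.sum_congr rfl h1, ← Finset.sum_filter]
  congr 1
  ext E
  simp only [Finset.mem_powerset, Finset.mem_filter]
  constructor
  · intro h
    exact ⟨SM_down hN hA (h.trans Finset.inter_subset_left), h⟩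
  · exact fun h => h.2

lemma quad (hN : ∀ p ∈ P, 2 ≤ N p) (u v : Finset ι → ℝ) :
    ∑ A ∈ SM P N M, ∑ B ∈ SM P N M, u A * v B * nA N (A ∩ B) =
      ∑ E ∈ SM P N M, ph N E * (∑ A ∈ SM P N M, if E ⊆ A then u A else 0) *
        (∑ B ∈ SM P N M, if E ⊆ B then v B else 0) := by
  have h1 : ∑ A ∈ SM P N M, ∑ B ∈ SM P N M, u A * v B * nA N (A ∩ B) =
      ∑ A ∈ SM P N M, ∑ B ∈ SM P N M, ∑ E ∈ SM P N M,
        ph N E * (if E ⊆ A then u A else 0) * (if E ⊆ B then v B else 0) := by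
    refine Finset.sum_congr rfl fun A hA => Finset.sum_congr rfl fun B _ => ?_
    rw [nA_inter_eq hN hA, Finset.mul_sum]
    refine Finset.sum_congr rfl fun E _ => ?_
    by_cases h2 : E ⊆ A <;> by_cases h3 : E ⊆ B <;> simp [h2, h3]
    ring
  rw [h1]
  have h4 : ∑ A ∈ SM P N M, ∑ B ∈ SM P N M, ∑ E ∈ SM P N M,
        ph N E * (if E ⊆ A then u A else 0) * (if E ⊆ B then v B else 0) =
      ∑ A ∈ SM P N M, ∑ E ∈ SM P N M, ∑ B ∈ SM P N M,
        ph N E * (if E ⊆ A then u A else 0) * (if E ⊆ B then v B else 0) :=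
    Finset.sum_congr rfl fun A _ => Finset.sum_comm
  rw [h4, Finset.sum_comm]
  refine Finset.sum_congr rfl fun E _ => ?_
  rw [mul_assoc, Finset.sum_mul_sum, Finset.mul_sum]
  refine Finset.sum_congr rfl fun A _ => ?_
  rw [Finset.mul_sum]
  exact Finset.sum_congr rfl fun B _ => by ring

lemma quad_xx (hN : ∀ p ∈ P, 2 ≤ N p) (hM : 1 ≤ M) :
    ∑ A ∈ SM P N M, ∑ B ∈ SM P N M, xS P N M A * xS P N M B * nA N (A ∩ B) =
      1 / GS P N M := by
  have hG := one_le_GS (P := P) (N := N) hN hM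
  rw [quad hN]
  have h1 : ∀ E ∈ SM P N M, ph N E * (∑ A ∈ SM P N M, if E ⊆ A then xS P N M A else 0) *
        (∑ B ∈ SM P N M, if E ⊆ B then xS P N M B else 0) =
        (ph N E)⁻¹ * (1 / GS P N M ^ 2) := by
    intro E hE
    have h2 := yS_eq (M := M) hN E
    unfold yS at h2
    have hp := ph_pos hN (mem_SM.1 hE).1
    have hs : ((-1 : ℝ) ^ E.card) ^ 2 = 1 := by
      rw [← pow_mul, mul_comm, pow_mul]; norm_num
    rw [h2, if_pos hE]
    field_simp
    exact hs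
  rw [Finset.sum_congr rfl h1, ← Finset.sum_mul]
  change GS P N M * (1 / GS P N M ^ 2) = 1 / GS P N M
  field_simp

/-! ## the derivative -/

lemma term_deriv (c α β : ℝ) (hα : 0 < α) (hβ : 0 < β) (w : ℂ) :
    HasDerivAt (fun w : ℂ => (c : ℂ) * (α : ℂ) ^ w * (β : ℂ) ^ (-1 - 2 * w))
      ((c : ℂ) * (α : ℂ) ^ w * (β : ℂ) ^ (-1 - 2 * w) *
        ((Real.log α - 2 * Real.log β : ℝ) : ℂ)) w := by
  have hα' : (α : ℂ) ≠ 0 := by exact_mod_cast hα.ne'
  have hβ' : (β : ℂ) ≠ 0 := by exact_mod_cast hβ.ne'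
  have h1 : HasDerivAt (fun w : ℂ => (α : ℂ) ^ w) ((α : ℂ) ^ w * Complex.log α * 1) w :=
    (hasDerivAt_id w).const_cpow (Or.inl hα')
  have h2 : HasDerivAt (fun w : ℂ => -1 - 2 * w) (-2) w := by
    have := ((hasDerivAt_id w).const_mul (2 : ℂ)).const_sub (-1)
    simpa using this
  have h3 : HasDerivAt (fun w : ℂ => (β : ℂ) ^ (-1 - 2 * w))
      ((β : ℂ) ^ (-1 - 2 * w) * Complex.log β * (-2)) w := h2.const_cpow (Or.inl hβ')
  have h4 : HasDerivAt (fun w : ℂ => (c : ℂ) * (α : ℂ) ^ w * (β : ℂ) ^ (-1 - 2 * w))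
      ((c : ℂ) * ((α : ℂ) ^ w * Complex.log α * 1) * (β : ℂ) ^ (-1 - 2 * w) +
        (c : ℂ) * (α : ℂ) ^ w * ((β : ℂ) ^ (-1 - 2 * w) * Complex.log β * (-2))) w :=
    (h1.const_mul (c : ℂ)).mul h3
  refine h4.congr_deriv ?_
  rw [← Complex.ofReal_log hα.le, ← Complex.ofReal_log hβ.le]
  push_cast
  ring

lemma BB_hasDeriv (hN : ∀ p ∈ P, 2 ≤ N p) (w : ℂ) :
    HasDerivAt (BB P N M) (∑ A ∈ SM P N M, ∑ B ∈ SM P N M,
      ((bS P N M A * bS P N M B : ℝ) : ℂ) * ((nA N A * nA N B : ℝ) : ℂ) ^ w *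
        ((nA N (A ∪ B) : ℝ) : ℂ) ^ (-1 - 2 * w) *
        ((Real.log (nA N A * nA N B) - 2 * Real.log (nA N (A ∪ B)) : ℝ) : ℂ)) w := by
  unfold BB
  refine HasDerivAt.fun_sum fun A hA => HasDerivAt.fun_sum fun B hB => ?_
  have hA' := (mem_SM.1 hA).1
  have hB' := (mem_SM.1 hB).1
  exact term_deriv _ _ _ (mul_pos (nA_pos hN hA') (nA_pos hN hB'))
    (nA_pos hN (Finset.union_subset hA' hB')) w

lemma bb_div (hN : ∀ p ∈ P, 2 ≤ N p) {A B : Finset ι} (hA : A ∈ SM P N M)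
    (hB : B ∈ SM P N M) :
    bS P N M A * bS P N M B / nA N (A ∪ B) = xS P N M A * xS P N M B * nA N (A ∩ B) := by
  have h1 : nA N (A ∪ B) * nA N (A ∩ B) = nA N A * nA N B := Finset.prod_union_inter
  have hA' := (mem_SM.1 hA).1
  have hB' := (mem_SM.1 hB).1
  have h2 := nA_pos hN (Finset.union_subset hA' hB')
  rw [bS_eq, bS_eq, div_eq_iff h2.ne']
  linear_combination (xS P N M A * xS P N M B) * (-h1)

lemma BB_zero (hN : ∀ p ∈ P, 2 ≤ N p) (hM : 1 ≤ M) :
    BB P N M 0 = ((1 / GS P N M : ℝ) : ℂ) := by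
  rw [← quad_xx hN hM]
  unfold BB
  push_cast
  refine Finset.sum_congr rfl fun A hA => Finset.sum_congr rfl fun B hB => ?_
  have h1 := bb_div hN hA hB
  have h2 : ((bS P N M A * bS P N M B / nA N (A ∪ B) : ℝ) : ℂ) =
      ((xS P N M A * xS P N M B * nA N (A ∩ B) : ℝ) : ℂ) := by rw [h1]
  push_cast at h2
  rw [← h2, Complex.cpow_zero, mul_zero, sub_zero, Complex.cpow_neg_one]
  ring

/-- `ℓ(p) = log N(p)` summed over a set -/
lemma log_nA (hN : ∀ p ∈ P, 2 ≤ N p) {A : Finset ι} (hA : A ⊆ P) :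
    Real.log (nA N A) = ∑ p ∈ A, Real.log (N p) := by
  unfold nA
  exact Real.log_prod (fun p hp => by linarith [hN p (hA hp)] : ∀ p ∈ A, N p ≠ 0)

lemma log_comb (hN : ∀ p ∈ P, 2 ≤ N p) {A B : Finset ι} (hA : A ⊆ P) (hB : B ⊆ P) :
    Real.log (nA N A * nA N B) - 2 * Real.log (nA N (A ∪ B)) =
      -(∑ p ∈ P, (if p ∈ A ∧ p ∉ B then Real.log (N p) else 0) +
        ∑ p ∈ P, (if p ∈ B ∧ p ∉ A then Real.log (N p) else 0)) := by
  rw [Real.log_mul (nA_pos hN hA).ne' (nA_pos hN hB).ne', log_nA hN hA, log_nA hN hB,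
    log_nA hN (Finset.union_subset hA hB)]
  have h1 : ∀ C D : Finset ι, C ⊆ P →
      ∑ p ∈ P, (if p ∈ C ∧ p ∉ D then Real.log (N p) else 0) = ∑ p ∈ C \ D, Real.log (N p) := by
    intro C D hC
    rw [← Finset.sum_filter]
    congr 1
    ext p
    simp only [Finset.mem_filter, Finset.mem_sdiff]
    constructor
    · exact fun h => h.2
    · exact fun h => ⟨hC h.1, h⟩
  rw [h1 A B hA, h1 B A hB]
  have h2 : ∑ p ∈ A ∪ B, Real.log (N p) = ∑ p ∈ A, Real.log (N p) +
      ∑ p ∈ B \ A, Real.log (N p) := by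
    rw [← Finset.sum_union Finset.disjoint_sdiff, Finset.union_sdiff_self_eq_union]
  have h3 : ∑ p ∈ A ∪ B, Real.log (N p) = ∑ p ∈ B, Real.log (N p) +
      ∑ p ∈ A \ B, Real.log (N p) := by
    rw [← Finset.sum_union Finset.disjoint_sdiff, Finset.union_sdiff_self_eq_union,
      Finset.union_comm]
  linear_combination -h2 - h3

/-- the real number `B'(0)` -/
noncomputable def bd (P : Finset ι) (N : ι → ℝ) (M : ℝ) : ℝ :=
  ∑ A ∈ SM P N M, ∑ B ∈ SM P N M, bS P N M A * bS P N M B / nA N (A ∪ B) *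
    (Real.log (nA N A * nA N B) - 2 * Real.log (nA N (A ∪ B)))

lemma deriv_BB (hN : ∀ p ∈ P, 2 ≤ N p) : deriv (BB P N M) 0 = ((bd P N M : ℝ) : ℂ) := by
  rw [(BB_hasDeriv hN 0).deriv]
  unfold bd
  push_cast
  refine Finset.sum_congr rfl fun A _ => Finset.sum_congr rfl fun B _ => ?_
  rw [Complex.cpow_zero, mul_zero, sub_zero, Complex.cpow_neg_one]
  ring

/-- the value of the derivative as a sum over `p` and `E` -/
lemma bd_eq (hN : ∀ p ∈ P, 2 ≤ N p) (hM : 1 ≤ M) :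
    bd P N M = 2 / GS P N M ^ 2 * ∑ p ∈ P, Real.log (N p) * ∑ E ∈ SM P N M,
      if p ∉ E ∧ insert p E ∈ SM P N M then
        (ph N E)⁻¹ * ((N p - 1)⁻¹ + ((N p - 1)⁻¹) ^ 2) else 0 := by
  have hG := one_le_GS (P := P) (N := N) hN hM
  -- first step
  have h1 : bd P N M = -(∑ A ∈ SM P N M, ∑ B ∈ SM P N M,
      xS P N M A * xS P N M B * nA N (A ∩ B) *
        ∑ p ∈ P, (if p ∈ A ∧ p ∉ B then Real.log (N p) else 0)) -
      (∑ A ∈ SM P N M, ∑ B ∈ SM P N M,
      xS P N M A * xS P N M B * nA N (A ∩ B) *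
        ∑ p ∈ P, (if p ∈ B ∧ p ∉ A then Real.log (N p) else 0)) := by
    unfold bd
    rw [← Finset.sum_neg_distrib, ← Finset.sum_sub_distrib]
    refine Finset.sum_congr rfl fun A hA => ?_
    rw [← Finset.sum_neg_distrib, ← Finset.sum_sub_distrib]
    refine Finset.sum_congr rfl fun B hB => ?_
    rw [bb_div hN hA hB, log_comb hN (mem_SM.1 hA).1 (mem_SM.1 hB).1]
    ring
  have h2 : (∑ A ∈ SM P N M, ∑ B ∈ SM P N M,
      xS P N M A * xS P N M B * nA N (A ∩ B) *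
        ∑ p ∈ P, (if p ∈ B ∧ p ∉ A then Real.log (N p) else 0)) =
      ∑ A ∈ SM P N M, ∑ B ∈ SM P N M,
      xS P N M A * xS P N M B * nA N (A ∩ B) *
        ∑ p ∈ P, (if p ∈ A ∧ p ∉ B then Real.log (N p) else 0) := by
    rw [Finset.sum_comm]
    refine Finset.sum_congr rfl fun A _ => Finset.sum_congr rfl fun B _ => ?_
    rw [Finset.inter_comm]
    ring
  have h3 : ∑ A ∈ SM P N M, ∑ B ∈ SM P N M,
      xS P N M A * xS P N M B * nA N (A ∩ B) *
        ∑ p ∈ P, (if p ∈ A ∧ p ∉ B then Real.log (N p) else 0) =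
      ∑ p ∈ P, Real.log (N p) * ∑ A ∈ SM P N M, ∑ B ∈ SM P N M,
        (if p ∈ A then xS P N M A else 0) * (if p ∉ B then xS P N M B else 0) *
          nA N (A ∩ B) := by
    have h4 : ∑ A ∈ SM P N M, ∑ B ∈ SM P N M,
      xS P N M A * xS P N M B * nA N (A ∩ B) *
        ∑ p ∈ P, (if p ∈ A ∧ p ∉ B then Real.log (N p) else 0) =
        ∑ A ∈ SM P N M, ∑ p ∈ P, ∑ B ∈ SM P N M, Real.log (N p) *
        ((if p ∈ A then xS P N M A else 0) * (if p ∉ B then xS P N M B else 0) *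
          nA N (A ∩ B)) := by
      refine Finset.sum_congr rfl fun A _ => ?_
      rw [Finset.sum_comm]
      refine Finset.sum_congr rfl fun B _ => ?_
      rw [Finset.mul_sum]
      refine Finset.sum_congr rfl fun p _ => ?_
      by_cases h5 : p ∈ A <;> by_cases h6 : p ∈ B <;> simp [h5, h6]
      ring
    rw [h4, Finset.sum_comm]
    refine Finset.sum_congr rfl fun p _ => ?_
    rw [Finset.mul_sum]
    refine Finset.sum_congr rfl fun A _ => ?_
    rw [Finset.mul_sum]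
  have h7 : ∀ p ∈ P, ∑ A ∈ SM P N M, ∑ B ∈ SM P N M,
        (if p ∈ A then xS P N M A else 0) * (if p ∉ B then xS P N M B else 0) *
          nA N (A ∩ B) =
      -(1 / GS P N M ^ 2) * ∑ E ∈ SM P N M,
      if p ∉ E ∧ insert p E ∈ SM P N M then
        (ph N E)⁻¹ * ((N p - 1)⁻¹ + ((N p - 1)⁻¹) ^ 2) else 0 := by
    intro p hp
    rw [quad hN (fun A => if p ∈ A then xS P N M A else 0)
      (fun B => if p ∉ B then xS P N M B else 0), Finset.mul_sum]
    refine Finset.sum_congr rfl fun E hE => ?_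
    have e1 : (∑ A ∈ SM P N M, if E ⊆ A then (if p ∈ A then xS P N M A else 0) else 0) =
        yS P N M (insert p E) := by
      unfold yS
      refine Finset.sum_congr rfl fun A _ => ?_
      by_cases h8 : E ⊆ A <;> by_cases h9 : p ∈ A <;> simp [h8, h9, Finset.insert_subset_iff]
    by_cases hpE : p ∈ E
    · have e2 : (∑ B ∈ SM P N M, if E ⊆ B then (if p ∉ B then xS P N M B else 0) else 0) = 0 := by
        refine Finset.sum_eq_zero fun B _ => ?_
        by_cases h8 : E ⊆ B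
        · simp [h8, h8 hpE]
        · simp [h8]
      rw [e2]
      simp [hpE]
    · have e2 : (∑ B ∈ SM P N M, if E ⊆ B then (if p ∉ B then xS P N M B else 0) else 0) =
          yS P N M E - yS P N M (insert p E) := by
        unfold yS
        rw [← Finset.sum_sub_distrib]
        refine Finset.sum_congr rfl fun B _ => ?_
        by_cases h8 : E ⊆ B <;> by_cases h9 : p ∈ B <;> simp [h8, h9, Finset.insert_subset_iff]
      rw [e1, e2, yS_eq hN E, yS_eq hN (insert p E), if_pos hE]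
      by_cases hI : insert p E ∈ SM P N M
      · rw [if_pos hI, if_pos ⟨hpE, hI⟩, Finset.card_insert_of_notMem hpE]
        have e3 : ph N (insert p E) = (N p - 1) * ph N E := by
          unfold ph
          rw [Finset.prod_insert hpE]
        have e4 := ph_pos hN (mem_SM.1 hE).1
        have e5 : 0 < N p - 1 := by linarith [hN p hp]
        have hs : ((-1 : ℝ) ^ E.card) ^ 2 = 1 := by
          rw [← pow_mul, mul_comm, pow_mul]; norm_num
        rw [e3, pow_succ]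
        field_simp
        linear_combination (-(N p - 1) - 1) * hs
      · rw [if_neg hI, if_neg (fun h => hI h.2)]
        simp
  rw [h1, h2, h3, Finset.sum_congr rfl fun p hp => by rw [h7 p hp], Finset.mul_sum,
    ← Finset.sum_neg_distrib, ← Finset.sum_sub_distrib]
  refine Finset.sum_congr rfl fun p _ => ?_
  ring

/-! ## the bound -/

lemma log_nonneg' (hN : ∀ p ∈ P, 2 ≤ N p) {p : ι} (hp : p ∈ P) : 0 ≤ Real.log (N p) :=
  Real.log_nonneg (by linarith [hN p hp])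

/-- `T₁` -/
noncomputable def T1 (P : Finset ι) (N : ι → ℝ) (M : ℝ) : ℝ :=
  ∑ p ∈ P, Real.log (N p) * ∑ E ∈ SM P N M,
      if p ∉ E ∧ insert p E ∈ SM P N M then (ph N E)⁻¹ * (N p - 1)⁻¹ else 0

/-- `T₂` -/
noncomputable def T2 (P : Finset ι) (N : ι → ℝ) (M : ℝ) : ℝ :=
  ∑ p ∈ P, Real.log (N p) * ∑ E ∈ SM P N M,
      if p ∉ E ∧ insert p E ∈ SM P N M then (ph N E)⁻¹ * ((N p - 1)⁻¹) ^ 2 else 0

lemma bd_T (hN : ∀ p ∈ P, 2 ≤ N p) (hM : 1 ≤ M) :
    bd P N M = 2 / GS P N M ^ 2 * (T1 P N M + T2 P N M) := by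
  rw [bd_eq hN hM]
  unfold T1 T2
  rw [← Finset.sum_add_distrib]
  congr 1
  refine Finset.sum_congr rfl fun p _ => ?_
  rw [← mul_add, ← Finset.sum_add_distrib]
  congr 1
  refine Finset.sum_congr rfl fun E _ => ?_
  by_cases h : p ∉ E ∧ insert p E ∈ SM P N M
  · rw [if_pos h, if_pos h, if_pos h, mul_add]
  · rw [if_neg h, if_neg h, if_neg h, add_zero]

lemma T1_eq (hN : ∀ p ∈ P, 2 ≤ N p) :
    T1 P N M = ∑ F ∈ SM P N M, (ph N F)⁻¹ * Real.log (nA N F) := by
  have h1 : ∀ p ∈ P, ∑ E ∈ SM P N M,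
      (if p ∉ E ∧ insert p E ∈ SM P N M then (ph N E)⁻¹ * (N p - 1)⁻¹ else 0) =
      ∑ F ∈ SM P N M, if p ∈ F then (ph N F)⁻¹ else 0 := by
    intro p hp
    rw [← Finset.sum_filter, ← Finset.sum_filter]
    refine Finset.sum_nbij' (fun E => insert p E) (fun F => F.erase p) ?_ ?_ ?_ ?_ ?_
    · intro E hE
      have h2 := Finset.mem_filter.1 hE
      exact Finset.mem_filter.2 ⟨h2.2.2, Finset.mem_insert_self _ _⟩
    · intro F hF
      have h2 := Finset.mem_filter.1 hF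
      refine Finset.mem_filter.2 ⟨SM_down hN h2.1 (Finset.erase_subset _ _),
        Finset.notMem_erase _ _, ?_⟩
      rw [Finset.insert_erase h2.2]
      exact h2.1
    · intro E hE
      have h2 := Finset.mem_filter.1 hE
      exact Finset.erase_insert h2.2.1
    · intro F hF
      have h2 := Finset.mem_filter.1 hF
      exact Finset.insert_erase h2.2
    · intro E hE
      have h2 := Finset.mem_filter.1 hE
      have e3 : ph N (insert p E) = (N p - 1) * ph N E := by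
        unfold ph
        rw [Finset.prod_insert h2.2.1]
      rw [e3, mul_inv]
      ring
  unfold T1
  rw [Finset.sum_congr rfl fun p hp => by rw [h1 p hp]]
  simp only [Finset.mul_sum]
  rw [Finset.sum_comm]
  refine Finset.sum_congr rfl fun F hF => ?_
  have hF' := (mem_SM.1 hF).1
  rw [log_nA hN hF', Finset.mul_sum]
  have h3 : ∑ p ∈ P, Real.log (N p) * (if p ∈ F then (ph N F)⁻¹ else 0) =
      ∑ p ∈ P, if p ∈ F then (ph N F)⁻¹ * Real.log (N p) else 0 := by
    refine Finset.sum_congr rfl fun p _ => ?_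
    by_cases h : p ∈ F
    · rw [if_pos h, if_pos h, mul_comm]
    · rw [if_neg h, if_neg h, mul_zero]
  rw [h3, ← Finset.sum_filter]
  congr 1
  ext p
  simp only [Finset.mem_filter]
  exact ⟨fun h => h.2, fun h => ⟨hF' h, h⟩⟩

lemma T1_le (hN : ∀ p ∈ P, 2 ≤ N p) {ε C : ℝ}
    (h : ∀ z : ℝ, 1 ≤ z → ∑ p ∈ P.filter (fun p => N p ≤ z), Real.log (N p) / (N p - 1) ≤
      (1 + ε) * Real.log z + C) :
    T1 P N M ≤ (1 + ε) * (GS P N M * Real.log M - T1 P N M) + C * GS P N M := by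
  have h1 : T1 P N M = ∑ E ∈ SM P N M, (ph N E)⁻¹ * ∑ p ∈ P,
      (if p ∉ E ∧ insert p E ∈ SM P N M then Real.log (N p) / (N p - 1) else 0) := by
    unfold T1
    simp only [Finset.mul_sum]
    rw [Finset.sum_comm]
    refine Finset.sum_congr rfl fun E _ => Finset.sum_congr rfl fun p _ => ?_
    by_cases h2 : p ∉ E ∧ insert p E ∈ SM P N M
    · rw [if_pos h2, if_pos h2, div_eq_mul_inv]
      ring
    · rw [if_neg h2, if_neg h2, mul_zero, mul_zero]
  have h3 : T1 P N M ≤ ∑ E ∈ SM P N M,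
      (ph N E)⁻¹ * ((1 + ε) * (Real.log M - Real.log (nA N E)) + C) := by
    rw [h1]
    refine Finset.sum_le_sum fun E hE => ?_
    have hE' := mem_SM.1 hE
    have hn := nA_pos hN hE'.1
    have hph := ph_pos hN hE'.1
    refine mul_le_mul_of_nonneg_left ?_ (inv_pos.2 hph).le
    have hM : 0 < M := lt_of_lt_of_le hn hE'.2
    have h4 := h (M / nA N E) (by rw [le_div_iff₀ hn]; linarith [hE'.2])
    rw [Real.log_div hM.ne' hn.ne'] at h4
    refine le_trans ?_ h4
    rw [Finset.sum_filter]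
    refine Finset.sum_le_sum fun p hp => ?_
    have h5 : 0 ≤ Real.log (N p) / (N p - 1) :=
      div_nonneg (log_nonneg' hN hp) (by linarith [hN p hp])
    by_cases h2 : p ∉ E ∧ insert p E ∈ SM P N M
    · rw [if_pos h2, if_pos]
      rw [le_div_iff₀ hn]
      have h6 := (mem_SM.1 h2.2).2
      unfold nA at h6 ⊢
      rw [Finset.prod_insert h2.1] at h6
      exact h6
    · rw [if_neg h2]
      by_cases h7 : N p ≤ M / nA N E
      · rw [if_pos h7]
        exact h5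
      · rw [if_neg h7]
  refine h3.trans (le_of_eq ?_)
  rw [T1_eq hN]
  unfold GS
  rw [Finset.sum_mul, ← Finset.sum_sub_distrib, Finset.mul_sum, Finset.mul_sum,
    ← Finset.sum_add_distrib]
  refine Finset.sum_congr rfl fun E _ => ?_
  ring

lemma T2_le (hN : ∀ p ∈ P, 2 ≤ N p) (hM : 1 ≤ M) {C : ℝ}
    (h : ∑ p ∈ P, Real.log (N p) / (N p - 1) ^ 2 ≤ C) :
    T2 P N M ≤ C * GS P N M := by
  have hG := one_le_GS (P := P) (N := N) hN hM
  refine le_trans ?_ (mul_le_mul_of_nonneg_right h (by linarith))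
  unfold T2
  rw [Finset.sum_mul]
  refine Finset.sum_le_sum fun p hp => ?_
  have h1 : 0 < N p - 1 := by linarith [hN p hp]
  have h2 : ∑ E ∈ SM P N M,
      (if p ∉ E ∧ insert p E ∈ SM P N M then (ph N E)⁻¹ * ((N p - 1)⁻¹) ^ 2 else 0) ≤
      ∑ E ∈ SM P N M, (ph N E)⁻¹ * ((N p - 1)⁻¹) ^ 2 := by
    refine Finset.sum_le_sum fun E hE => ?_
    have hph := ph_pos hN (mem_SM.1 hE).1
    by_cases h3 : p ∉ E ∧ insert p E ∈ SM P N M
    · rw [if_pos h3]
    · rw [if_neg h3]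
      positivity
  rw [← Finset.sum_mul] at h2
  calc Real.log (N p) * ∑ E ∈ SM P N M,
      (if p ∉ E ∧ insert p E ∈ SM P N M then (ph N E)⁻¹ * ((N p - 1)⁻¹) ^ 2 else 0)
      ≤ Real.log (N p) * ((∑ E ∈ SM P N M, (ph N E)⁻¹) * ((N p - 1)⁻¹) ^ 2) :=
        mul_le_mul_of_nonneg_left h2 (log_nonneg' hN hp)
    _ = Real.log (N p) / (N p - 1) ^ 2 * GS P N M := by
        unfold GS
        rw [div_eq_mul_inv, inv_pow]
        ring

/-- **Selberg's weights.** -/
theorem t_sel : St_SEL := by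
  intro ι P N M hN hM
  have hG := one_le_GS (P := P) (N := N) hN hM
  refine ⟨hG, bS_empty hN hM, fun A hA => bS_bound hN hM hA,
    fun w => (BB_hasDeriv hN w).differentiableAt, BB_zero hN hM, ?_⟩
  intro ε C hε hC h1 h2
  refine ⟨bd P N M, deriv_BB hN, ?_⟩
  rw [bd_T hN hM]
  have h3 := T1_le (M := M) hN h1
  have h4 := T2_le (M := M) hN hM h2
  have hL : 0 ≤ Real.log M := Real.log_nonneg hM
  set G := GS P N M with hGdef
  set t1 := T1 P N M
  set t2 := T2 P N M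
  have hG0 : 0 < G := by linarith
  have h5 : t1 ≤ G * ((1 + ε) * Real.log M + C) / 2 := by
    have h6 : (2 + ε) * t1 ≤ G * ((1 + ε) * Real.log M + C) := by nlinarith
    have h7 : 0 ≤ G * ((1 + ε) * Real.log M + C) := by positivity
    rcases le_or_gt t1 0 with h8 | h8
    · linarith
    · nlinarith
  have h9 : 2 / G ^ 2 * (t1 + t2) ≤
      2 / G ^ 2 * (G * ((1 + ε) * Real.log M + C) / 2 + C * G) :=
    mul_le_mul_of_nonneg_left (by linarith) (by positivity)
  refine h9.trans (le_of_eq ?_)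
  field_simp
  ring

end Pool.Agent.Y462.NV.Sel
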